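import Pool.Agent.Y957.MC.Spec

set_option autoImplicit false

/-!
# LV: large values of exponential sums with arbitrary coefficients
-/

namespace Pool.Agent.Y779.MC

open Finset Pool.Agent.Y957.MC

/-- the harmonic sum -/
theorem harm (m : ℕ) : ∑ i ∈ Icc 1 m, ((i : ℝ))⁻¹ ≤ 1 + Real.log m := by
  have h := harmonic_le_one_add_log m
  rw [harmonic_eq_sum_Icc] at h
  push_cast at h
  exact h

theorem harm_sub {S : Finset ℤ} {f : ℤ → ℕ} {m : ℕ} (hf : Set.InjOn f S)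
    (hm : ∀ k ∈ S, f k ∈ Icc 1 m) : ∑ k ∈ S, ((f k : ℝ))⁻¹ ≤ 1 + Real.log m := by
  rw [← sum_image (f := fun i : ℕ => ((i : ℝ))⁻¹) hf]
  refine le_trans (sum_le_sum_of_subset_of_nonneg ?_ ?_) (harm m)
  · intro i hi
    obtain ⟨k, hk, rfl⟩ := mem_image.1 hi
    exact hm k hk
  · intro i _ _
    positivity

/-- the sum of the reciprocals of the distances -/
theorem recip {S : Finset ℤ} {K : ℕ} (hS : ∀ k ∈ S, |k| ≤ K) {k : ℤ} (hk : k ∈ S) :
    ∑ k' ∈ S.erase k, (|((k - k' : ℤ) : ℝ)|)⁻¹ ≤ 2 * (1 + Real.log (2 * K)) := by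
  have hk0 := abs_le.1 (hS k hk)
  have hsplit : S.erase k = (S.erase k).filter (fun k' => k' < k) ∪
      (S.erase k).filter (fun k' => ¬ k' < k) := (filter_union_filter_not_eq _ _).symm
  rw [hsplit, sum_union (disjoint_filter_filter_not _ _ _)]
  have hcast : (((2 * K : ℕ) : ℝ)) = 2 * K := by push_cast; ring
  have h1 : ∑ k' ∈ (S.erase k).filter (fun k' => k' < k), (|((k - k' : ℤ) : ℝ)|)⁻¹ ≤
      1 + Real.log (2 * K) := by
    have h2 : ∑ k' ∈ (S.erase k).filter (fun k' => k' < k), (|((k - k' : ℤ) : ℝ)|)⁻¹ =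
        ∑ k' ∈ (S.erase k).filter (fun k' => k' < k), (((k - k').toNat : ℕ) : ℝ)⁻¹ := by
      refine sum_congr rfl fun k' hk' => ?_
      have h3 := (mem_filter.1 hk').2
      congr 1
      have h4 : (0:ℤ) ≤ k - k' := by omega
      have h5 : (((k - k').toNat : ℕ) : ℤ) = k - k' := Int.toNat_of_nonneg h4
      have h6 : (((k - k').toNat : ℕ) : ℝ) = ((k - k' : ℤ) : ℝ) := by exact_mod_cast h5
      rw [h6, abs_of_nonneg]
      exact_mod_cast h4
    rw [h2, ← hcast]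
    refine harm_sub ?_ ?_
    · intro x hx y hy hxy
      have h3 := (mem_filter.1 hx).2
      have h4 := (mem_filter.1 hy).2
      simp only at hxy
      omega
    · intro x hx
      have h3 := (mem_filter.1 hx).2
      have h4 := abs_le.1 (hS x (mem_of_mem_erase (mem_filter.1 hx).1))
      rw [mem_Icc]
      omega
  have h1' : ∑ k' ∈ (S.erase k).filter (fun k' => ¬ k' < k), (|((k - k' : ℤ) : ℝ)|)⁻¹ ≤
      1 + Real.log (2 * K) := by
    have h2 : ∑ k' ∈ (S.erase k).filter (fun k' => ¬ k' < k), (|((k - k' : ℤ) : ℝ)|)⁻¹ =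
        ∑ k' ∈ (S.erase k).filter (fun k' => ¬ k' < k), (((k' - k).toNat : ℕ) : ℝ)⁻¹ := by
      refine sum_congr rfl fun k' hk' => ?_
      have h3 := (mem_filter.1 hk').2
      congr 1
      have h4 : (0:ℤ) ≤ k' - k := by omega
      have h5 : (((k' - k).toNat : ℕ) : ℤ) = k' - k := Int.toNat_of_nonneg h4
      have h6 : (((k' - k).toNat : ℕ) : ℝ) = ((k' - k : ℤ) : ℝ) := by exact_mod_cast h5
      rw [h6, abs_of_nonpos]
      · push_cast
        ring
      · have : k - k' ≤ 0 := by omega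
        exact_mod_cast this
    rw [h2, ← hcast]
    refine harm_sub ?_ ?_
    · intro x hx y hy hxy
      have h3 := (mem_filter.1 hx).2
      have h4 := (mem_filter.1 hy).2
      simp only at hxy
      omega
    · intro x hx
      have h3 := (mem_filter.1 hx).2
      have h4 := abs_le.1 (hS x (mem_of_mem_erase (mem_filter.1 hx).1))
      have h5 := (mem_erase.1 (mem_filter.1 hx).1).1
      rw [mem_Icc]
      omega
  linarith

/-- the exponentials -/
noncomputable def ex (Λ : ℝ) (y : ℕ → ℝ) (k : ℤ) (n : ℕ) : ℂ :=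
  Complex.exp (((2 * Real.pi * k / Λ * Real.log (y n) : ℝ) : ℂ) * Complex.I)

theorem ex_conj (Λ : ℝ) (y : ℕ → ℝ) (k k' : ℤ) (n : ℕ) :
    ex Λ y k n * (starRingEnd ℂ) (ex Λ y k' n) = ex Λ y (k - k') n := by
  unfold ex
  rw [← Complex.exp_conj, ← Complex.exp_add]
  congr 1
  rw [map_mul, Complex.conj_I, Complex.conj_ofReal]
  push_cast
  ring

/-- the large sieve type inequality -/
theorem dual (Λ : ℝ) (I : Finset ℕ) (y : ℕ → ℝ) (B : ℕ → ℂ) (N K : ℕ) (D E : ℝ)
    (hN : 1 ≤ N) (hI : I.card ≤ N) (hB : ∀ n, ‖B n‖ ≤ 1) (hD : 0 ≤ D) (hE : 0 ≤ E)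
    (hA : ∀ j : ℤ, j ≠ 0 → |j| ≤ 2 * K →
      ‖∑ n ∈ I, ex Λ y j n‖ ≤ D * N / |(j : ℝ)| + E) (S : Finset ℤ) (hS : ∀ k ∈ S, |k| ≤ K) :
    ∑ k ∈ S, ‖bt Λ B I y N k‖ ^ 2 ≤ (1 + 2 * D * (1 + Real.log (2 * K))) + S.card * E / N := by
  have hN0 : (0:ℝ) < N := by exact_mod_cast hN
  set b : ℤ → ℂ := fun k => bt Λ B I y N k with hb
  set P : ℝ := ∑ k ∈ S, ‖b k‖ ^ 2 with hP
  have hP0 : 0 ≤ P := sum_nonneg fun k _ => sq_nonneg _
  set G : ℕ → ℂ := fun n => ∑ k ∈ S, (starRingEnd ℂ) (b k) * ex Λ y k n with hG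
  -- duality
  have e1 : ((P : ℝ) : ℂ) = (1 / (N : ℂ)) * ∑ n ∈ I, B n * G n := by
    have h1 : ((P : ℝ) : ℂ) = ∑ k ∈ S, (starRingEnd ℂ) (b k) * b k := by
      rw [hP]
      push_cast
      refine sum_congr rfl fun k _ => ?_
      rw [mul_comm, Complex.mul_conj, Complex.normSq_eq_norm_sq]
      push_cast
      rfl
    rw [h1]
    have h2 : ∀ k, b k = (1 / (N : ℂ)) * ∑ n ∈ I, B n * ex Λ y k n := fun k => rfl
    have h3 : ∀ k ∈ S, (starRingEnd ℂ) (b k) * b k =
        (1 / (N : ℂ)) * ∑ n ∈ I, B n * ((starRingEnd ℂ) (b k) * ex Λ y k n) := by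
      intro k _
      have h4 : (starRingEnd ℂ) (b k) * b k =
          (starRingEnd ℂ) (b k) * ((1 / (N : ℂ)) * ∑ n ∈ I, B n * ex Λ y k n) :=
        congrArg (fun z => (starRingEnd ℂ) (b k) * z) (h2 k)
      rw [h4, mul_left_comm, mul_sum]
      congr 1
      refine sum_congr rfl fun n _ => ?_
      ring
    rw [sum_congr rfl h3, ← mul_sum, sum_comm]
    congr 1
    refine sum_congr rfl fun n _ => ?_
    rw [hG]
    simp only
    rw [mul_sum]
  have e2 : P ≤ (1 / N) * ∑ n ∈ I, ‖G n‖ := by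
    have h1 : P = ‖((P : ℝ) : ℂ)‖ := by
      rw [Complex.norm_real, Real.norm_eq_abs, abs_of_nonneg hP0]
    rw [h1, e1, norm_mul]
    have h2 : ‖(1 / (N : ℂ))‖ = 1 / N := by
      rw [norm_div, norm_one, Complex.norm_natCast]
    rw [h2]
    apply mul_le_mul_of_nonneg_left _ (by positivity)
    refine (norm_sum_le _ _).trans (sum_le_sum fun n _ => ?_)
    rw [norm_mul]
    exact mul_le_of_le_one_left (norm_nonneg _) (hB n)
  have e3 : (∑ n ∈ I, ‖G n‖) ^ 2 ≤ N * ∑ n ∈ I, ‖G n‖ ^ 2 := by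
    have h1 := sq_sum_le_card_mul_sum_sq (s := I) (f := fun n => ‖G n‖)
    refine h1.trans (mul_le_mul_of_nonneg_right ?_ (sum_nonneg fun n _ => sq_nonneg _))
    exact_mod_cast hI
  -- the double sum
  set al : ℤ → ℝ := fun j => if j = 0 then (N : ℝ) else D * N / |(j : ℝ)| + E with hal
  have hAl : ∀ k ∈ S, ∀ k' ∈ S, ‖∑ n ∈ I, ex Λ y (k - k') n‖ ≤ al (k - k') := by
    intro k hk k' hk'
    rw [hal]
    simp only
    split_ifs with h
    · refine (norm_sum_le _ _).trans ?_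
      have h1 : ∀ n ∈ I, ‖ex Λ y (k - k') n‖ ≤ 1 := by
        intro n _
        unfold ex
        rw [Complex.norm_exp_ofReal_mul_I]
      refine (sum_le_sum h1).trans ?_
      rw [sum_const, nsmul_eq_mul, mul_one]
      exact_mod_cast hI
    · refine hA _ h ?_
      have h1 := abs_le.1 (hS k hk)
      have h2 := abs_le.1 (hS k' hk')
      rw [abs_le]
      constructor <;> omega
  have hal0 : ∀ j, 0 ≤ al j := by
    intro j
    rw [hal]
    simp only
    split_ifs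
    · exact hN0.le
    · positivity
  have halsym : ∀ k k' : ℤ, al (k' - k) = al (k - k') := by
    intro k k'
    rw [hal]
    simp only
    have h1 : k' - k = -(k - k') := by ring
    rw [h1]
    simp only [neg_eq_zero, Int.cast_neg, abs_neg]
  have e4 : ∑ n ∈ I, ‖G n‖ ^ 2 ≤ ∑ k ∈ S, ∑ k' ∈ S, ‖b k‖ * ‖b k'‖ * al (k - k') := by
    have h1 : ((∑ n ∈ I, ‖G n‖ ^ 2 : ℝ) : ℂ) = ∑ k ∈ S, ∑ k' ∈ S,
        ((starRingEnd ℂ) (b k) * b k') * ∑ n ∈ I, ex Λ y (k - k') n := by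
      push_cast
      have h2 : ∀ n ∈ I, ((‖G n‖ : ℝ) : ℂ) ^ 2 = ∑ k ∈ S, ∑ k' ∈ S,
          ((starRingEnd ℂ) (b k) * b k') * ex Λ y (k - k') n := by
        intro n _
        have h3 : ((‖G n‖ : ℝ) : ℂ) ^ 2 = G n * (starRingEnd ℂ) (G n) := by
          rw [Complex.mul_conj, Complex.normSq_eq_norm_sq]
          push_cast
          rfl
        rw [h3, hG]
        simp only
        rw [map_sum, sum_mul_sum]
        refine sum_congr rfl fun k _ => sum_congr rfl fun k' _ => ?_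
        rw [map_mul, Complex.conj_conj, ← ex_conj]
        ring
      rw [sum_congr rfl h2, sum_comm]
      refine sum_congr rfl fun k _ => ?_
      rw [sum_comm]
      refine sum_congr rfl fun k' _ => ?_
      rw [mul_sum]
    have h2 : ∑ n ∈ I, ‖G n‖ ^ 2 = ‖((∑ n ∈ I, ‖G n‖ ^ 2 : ℝ) : ℂ)‖ := by
      rw [Complex.norm_real, Real.norm_eq_abs, abs_of_nonneg (sum_nonneg fun n _ => sq_nonneg _)]
    rw [h2, h1]
    refine (norm_sum_le _ _).trans (sum_le_sum fun k hk => ?_)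
    refine (norm_sum_le _ _).trans (sum_le_sum fun k' hk' => ?_)
    rw [norm_mul, norm_mul, RCLike.norm_conj]
    exact mul_le_mul_of_nonneg_left (hAl k hk k' hk') (by positivity)
  have e5 : ∑ k ∈ S, ∑ k' ∈ S, ‖b k‖ * ‖b k'‖ * al (k - k') ≤
      ∑ k ∈ S, ‖b k‖ ^ 2 * ∑ k' ∈ S, al (k - k') := by
    have h1 : ∑ k ∈ S, ∑ k' ∈ S, ‖b k‖ * ‖b k'‖ * al (k - k') ≤
        ∑ k ∈ S, ∑ k' ∈ S, (‖b k‖ ^ 2 * al (k - k') / 2 + ‖b k'‖ ^ 2 * al (k - k') / 2) := by
      refine sum_le_sum fun k _ => sum_le_sum fun k' _ => ?_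
      have h2 : ‖b k‖ * ‖b k'‖ ≤ (‖b k‖ ^ 2 + ‖b k'‖ ^ 2) / 2 := by
        nlinarith [sq_nonneg (‖b k‖ - ‖b k'‖)]
      have h3 := mul_le_mul_of_nonneg_right h2 (hal0 (k - k'))
      linarith
    refine h1.trans (le_of_eq ?_)
    simp only [sum_add_distrib]
    have h2 : ∑ k ∈ S, ∑ k' ∈ S, ‖b k'‖ ^ 2 * al (k - k') / 2 =
        ∑ k ∈ S, ∑ k' ∈ S, ‖b k‖ ^ 2 * al (k - k') / 2 := by
      rw [sum_comm]
      refine sum_congr rfl fun k _ => sum_congr rfl fun k' _ => ?_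
      rw [halsym]
    rw [h2, ← sum_add_distrib]
    refine sum_congr rfl fun k _ => ?_
    rw [mul_sum, ← sum_add_distrib]
    refine sum_congr rfl fun k' _ => ?_
    ring
  set L : ℝ := 1 + 2 * D * (1 + Real.log (2 * K)) with hL
  have e6 : ∀ k ∈ S, ∑ k' ∈ S, al (k - k') ≤ N * L + S.card * E := by
    intro k hk
    rw [← add_sum_erase S _ hk]
    have h0 : al (k - k) = N := by
      rw [hal]
      simp
    have h1 : ∀ k' ∈ S.erase k, al (k - k') = D * N * (|((k - k' : ℤ) : ℝ)|)⁻¹ + E := by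
      intro k' hk'
      have h2 : k - k' ≠ 0 := by
        have := (mem_erase.1 hk').1
        omega
      rw [hal]
      simp only
      rw [if_neg h2, div_eq_mul_inv]
    rw [h0, sum_congr rfl h1, sum_add_distrib, ← mul_sum, sum_const, nsmul_eq_mul]
    have h3 := mul_le_mul_of_nonneg_left (recip hS hk) (by positivity : 0 ≤ D * N)
    have h4 : ((S.erase k).card : ℝ) * E ≤ S.card * E := by
      apply mul_le_mul_of_nonneg_right _ hE
      exact_mod_cast card_le_card (erase_subset k S)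
    have h5 : N * L = N + D * N * (2 * (1 + Real.log (2 * K))) := by
      rw [hL]
      ring
    linarith
  have e7 : P ^ 2 ≤ P * (L + S.card * E / N) := by
    have h1 : ∑ n ∈ I, ‖G n‖ ^ 2 ≤ P * (N * L + S.card * E) := by
      refine (e4.trans e5).trans ?_
      rw [hP, sum_mul]
      exact sum_le_sum fun k hk => mul_le_mul_of_nonneg_left (e6 k hk) (sq_nonneg _)
    have h2 : P ^ 2 ≤ (1 / N) ^ 2 * (∑ n ∈ I, ‖G n‖) ^ 2 := by
      rw [← mul_pow]
      exact pow_le_pow_left₀ hP0 e2 2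
    calc P ^ 2 ≤ (1 / N) ^ 2 * (∑ n ∈ I, ‖G n‖) ^ 2 := h2
      _ ≤ (1 / N) ^ 2 * (N * (P * (N * L + S.card * E))) := by
          apply mul_le_mul_of_nonneg_left _ (by positivity)
          exact e3.trans (mul_le_mul_of_nonneg_left h1 hN0.le)
      _ = P * (L + S.card * E / N) := by
          field_simp
  rcases eq_or_lt_of_le hP0 with h | h
  · rw [← h]
    have hK : 0 ≤ 1 + Real.log (2 * K) := by
      rcases Nat.eq_zero_or_pos K with h0 | h0
      · rw [h0]
        simp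
      · have : (1:ℝ) ≤ 2 * K := by
          have : (1:ℝ) ≤ K := by exact_mod_cast h0
          linarith
        have := Real.log_nonneg this
        linarith
    have h1 : 0 ≤ L := by
      rw [hL]
      positivity
    positivity
  · rw [sq] at e7
    exact le_of_mul_le_mul_left e7 h

theorem lv : S_LV := by
  intro Λ I y B N K D E s c R _ hN hK hI hB hD hE hs hR hA hc hc1
  have hN0 : (0:ℝ) < N := by exact_mod_cast hN
  set L : ℝ := 1 + 2 * D * (1 + Real.log (2 * K)) with hL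
  have hK0 : 0 ≤ 1 + Real.log (2 * K) := by
    have : (1:ℝ) ≤ 2 * K := by
      have : (1:ℝ) ≤ K := by exact_mod_cast hK
      linarith
    have := Real.log_nonneg this
    linarith
  have hL0 : 0 ≤ L := by
    rw [hL]
    positivity
  set S := R.filter (fun k => 2 * E / N < ‖bt Λ B I y N k‖ ^ 2) with hS
  have h1 := dual Λ I y B N K D E hN hI hB hD hE hA S (fun k hk => hR k (mem_filter.1 hk).1)
  have h2 : (S.card : ℝ) * (2 * E / N) ≤ ∑ k ∈ S, ‖bt Λ B I y N k‖ ^ 2 := by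
    rw [← nsmul_eq_mul, ← sum_const]
    exact sum_le_sum fun k hk => (mem_filter.1 hk).2.le
  have h3 : ∑ k ∈ S, ‖bt Λ B I y N k‖ ^ 2 ≤ 2 * L := by
    have e1 : (S.card : ℝ) * (2 * E / N) = 2 * (S.card * E / N) := by ring
    rw [e1] at h2
    linarith
  have h4 : ∑ k ∈ S, c k * ‖bt Λ B I y N k‖ ^ 2 ≤ s * (2 * L) := by
    refine le_trans ?_ (mul_le_mul_of_nonneg_left h3 hs)
    rw [mul_sum]
    exact sum_le_sum fun k hk => mul_le_mul_of_nonneg_right (hc k (mem_filter.1 hk).1).2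
      (sq_nonneg _)
  have h5 : ∑ k ∈ R.filter (fun k => ¬ 2 * E / N < ‖bt Λ B I y N k‖ ^ 2),
      c k * ‖bt Λ B I y N k‖ ^ 2 ≤ 2 * E / N := by
    have e1 : ∑ k ∈ R.filter (fun k => ¬ 2 * E / N < ‖bt Λ B I y N k‖ ^ 2),
        c k * ‖bt Λ B I y N k‖ ^ 2 ≤
        ∑ k ∈ R.filter (fun k => ¬ 2 * E / N < ‖bt Λ B I y N k‖ ^ 2), c k * (2 * E / N) := by
      refine sum_le_sum fun k hk => ?_
      have h6 := mem_filter.1 hk
      exact mul_le_mul_of_nonneg_left (not_lt.1 h6.2) (hc k h6.1).1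
    have e2 : ∑ k ∈ R.filter (fun k => ¬ 2 * E / N < ‖bt Λ B I y N k‖ ^ 2), c k ≤ 1 := by
      refine le_trans (sum_le_sum_of_subset_of_nonneg (filter_subset _ _) ?_) hc1
      intro k hk _
      exact (hc k hk).1
    rw [← sum_mul] at e1
    have e3 := mul_le_mul_of_nonneg_right e2 (by positivity : 0 ≤ 2 * E / N)
    linarith
  rw [← sum_filter_add_sum_filter_not R (fun k => 2 * E / N < ‖bt Λ B I y N k‖ ^ 2)]
  linarith

end Pool.Agent.Y779.MC
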